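import Mathlib

set_option autoImplicit false

namespace Pool.Agent.Results.MP_d3a611_gt.NoCurv

open Finset

/-- The discrete Heisenberg group: `(x, y, z)` is the unitriangular integer matrix with rows
`(1, x, z)`, `(0, 1, y)`, `(0, 0, 1)`. -/
@[ext] structure Heis where
  x : ℤ
  y : ℤ
  z : ℤ
deriving DecidableEq

instance : Mul Heis := ⟨fun g h => ⟨g.x + h.x, g.y + h.y, g.z + h.z + g.x * h.y⟩⟩
instance : One Heis := ⟨⟨0, 0, 0⟩⟩
instance : Inv Heis := ⟨fun g => ⟨-g.x, -g.y, -g.z + g.x * g.y⟩⟩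

@[simp] theorem mul_x (g h : Heis) : (g * h).x = g.x + h.x := rfl
@[simp] theorem mul_y (g h : Heis) : (g * h).y = g.y + h.y := rfl
@[simp] theorem mul_z (g h : Heis) : (g * h).z = g.z + h.z + g.x * h.y := rfl
@[simp] theorem one_x : (1 : Heis).x = 0 := rfl
@[simp] theorem one_y : (1 : Heis).y = 0 := rfl
@[simp] theorem one_z : (1 : Heis).z = 0 := rfl
@[simp] theorem inv_x (g : Heis) : g⁻¹.x = -g.x := rfl
@[simp] theorem inv_y (g : Heis) : g⁻¹.y = -g.y := rfl
@[simp] theorem inv_z (g : Heis) : g⁻¹.z = -g.z + g.x * g.y := rfl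

instance : Group Heis := Group.ofLeftAxioms
  (fun a b c => by ext <;> simp <;> ring) (fun a => by ext <;> simp) (fun a => by ext <;> simp)

/-- The Cayley graph: `g` is adjacent to `g * s` for `s ∈ S`. -/
def cay (S : Finset Heis) : SimpleGraph Heis := SimpleGraph.fromRel (fun g h => ∃ s ∈ S, h = g * s)

/-- `L¹` Wasserstein distance between the uniform measures on the neighbours `a * s` of `a` and
`b * t` of `b`: the infimum of the transport cost over all couplings. -/
noncomputable def W1 (S : Finset Heis) (a b : Heis) : ℝ :=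
  sInf {c | ∃ ρ : Heis → Heis → ℝ, (∀ s t, 0 ≤ ρ s t) ∧
    (∀ s ∈ S, ∑ t ∈ S, ρ s t = 1 / S.card) ∧ (∀ t ∈ S, ∑ s ∈ S, ρ s t = 1 / S.card) ∧
    c = ∑ s ∈ S, ∑ t ∈ S, ρ s t * (cay S).dist (a * s) (b * t)}

/-- Ollivier–Ricci curvature -/
noncomputable def curv (S : Finset Heis) (a b : Heis) : ℝ := 1 - W1 S a b / (cay S).dist a b

theorem adj_iff {S : Finset Heis} (hS : ∀ s ∈ S, s⁻¹ ∈ S) {g h : Heis} (H : (cay S).Adj g h) :
    ∃ s ∈ S, h = g * s := by
  rw [cay, SimpleGraph.fromRel_adj] at H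
  rcases H.2 with H | ⟨s, hs, rfl⟩
  · exact H
  · exact ⟨s⁻¹, hS s hs, by simp⟩

theorem adj_mul {S : Finset Heis} (h1 : 1 ∉ S) (g : Heis) {s : Heis} (hs : s ∈ S) :
    (cay S).Adj g (g * s) := by
  rw [cay, SimpleGraph.fromRel_adj]
  refine ⟨fun h => h1 ?_, Or.inl ⟨s, hs, rfl⟩⟩
  rwa [left_eq_mul.1 h] at hs

theorem reach {S : Finset Heis} (h1 : 1 ∉ S) (hS : ∀ s ∈ S, s⁻¹ ∈ S)
    (hg : Subgroup.closure (S : Set Heis) = ⊤) (g h : Heis) : (cay S).Reachable g h := by
  have : ∀ k ∈ Subgroup.closure (S : Set Heis), ∀ g, (cay S).Reachable g (g * k) := by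
    intro k hk
    induction hk using Subgroup.closure_induction with
    | mem k hk => exact fun g => (adj_mul h1 g hk).reachable
    | one => intro g; simp
    | mul a b _ _ ha hb => intro g; rw [← mul_assoc]; exact (ha g).trans (hb _)
    | inv a _ ha => intro g; have := (ha (g * a⁻¹)).symm; simpa using this
  simpa using this (g⁻¹ * h) (by rw [hg]; trivial) g

/-- linear functional, symplectic form and symmetrised central coordinate -/
def phi (s g : Heis) : ℤ := s.x * g.x + s.y * g.y
def om (s g : Heis) : ℤ := g.x * s.y - g.y * s.x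
def psi (g : Heis) : ℤ := 2 * g.z - g.x * g.y

theorem walk_bound {S : Finset Heis} (hS : ∀ s ∈ S, s⁻¹ ∈ S) (s : Heis)
    (hmax : ∀ u ∈ S, phi u u ≤ phi s s)
    (hz : ∀ u ∈ S, u.x = s.x → u.y = s.y → u.z ≤ s.z) {g h : Heis} (p : (cay S).Walk g h) :
    phi s h - phi s g ≤ p.length * phi s s ∧ (phi s h - phi s g = p.length * phi s s →
      om s h = om s g ∧ psi h ≤ psi g + p.length * (psi s + om s g)) := by
  induction p with
  | nil => simp
  | @cons a b c hab p ih =>
    obtain ⟨u, hu, rfl⟩ := adj_iff hS hab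
    have h1 := hmax u hu
    have h2 : phi s (a * u) = phi s a + phi s u := by simp [phi]; ring
    have h3 : 2 * phi s u + ((u.x - s.x) ^ 2 + (u.y - s.y) ^ 2) = phi u u + phi s s := by
      simp [phi]; ring
    have h4 := sq_nonneg (u.x - s.x)
    have h5 := sq_nonneg (u.y - s.y)
    simp only [SimpleGraph.Walk.length_cons]
    push_cast
    refine ⟨by nlinarith [ih.1], fun h => ?_⟩
    have h6 : phi s c - phi s (a * u) = p.length * phi s s := by nlinarith [ih.1]
    have h7 : u.x = s.x := by nlinarith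
    have h8 : u.y = s.y := by nlinarith
    obtain ⟨h9, h10⟩ := ih.2 h6
    have h11 : om s (a * u) = om s a := by simp [om, h7, h8]; ring
    have h12 : psi (a * u) ≤ psi a + psi s + om s a := by
      have := hz u hu h7 h8
      simp only [psi, om, mul_x, mul_y, mul_z, h7, h8]; nlinarith
    rw [h11] at h9 h10
    exact ⟨h9, by nlinarith⟩

theorem result (S : Finset Heis) (h1 : 1 ∉ S) (hS : ∀ s ∈ S, s⁻¹ ∈ S)
    (hg : Subgroup.closure (S : Set Heis) = ⊤) :
    ∃ a b : Heis, (cay S).Adj a b ∧ curv S a b < 0 := by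
  have hgen : ∀ s : Heis, (∀ u ∈ S, om s u = 0) → phi s s = 0 := by
    intro s h
    have : ∀ k ∈ Subgroup.closure (S : Set Heis), om s k = 0 := by
      intro k hk
      induction hk using Subgroup.closure_induction with
      | mem k hk => exact h k hk
      | one => simp [om]
      | mul a b _ _ ha hb => simp only [om, mul_x, mul_y] at *; linarith
      | inv a _ ha => simp only [om, inv_x, inv_y] at *; linarith
    have a1 := this ⟨1, 0, 0⟩ (by rw [hg]; trivial)
    have a2 := this ⟨0, 1, 0⟩ (by rw [hg]; trivial)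
    simp only [om] at a1 a2
    have a3 : s.x = 0 := by linarith
    have a4 : s.y = 0 := by linarith
    simp [phi, a3, a4]
  obtain ⟨u0, hu0, hu0'⟩ : ∃ u ∈ S, om ⟨1, 0, 0⟩ u ≠ 0 := by
    by_contra hc
    push Not at hc
    simpa [phi] using hgen _ hc
  obtain ⟨s0, hs0, hmax0⟩ := exists_max_image S (fun u => phi u u) ⟨u0, hu0⟩
  obtain ⟨s, hs, hz⟩ := exists_max_image (S.filter (fun u => u.x = s0.x ∧ u.y = s0.y))
    (fun u => u.z) ⟨s0, by simp [hs0]⟩
  rw [mem_filter] at hs
  obtain ⟨hs, hsx, hsy⟩ := hs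
  have hmax : ∀ u ∈ S, phi u u ≤ phi s s := fun u hu => by
    have := hmax0 u hu
    simpa [phi, hsx, hsy] using this
  have hz' : ∀ u ∈ S, u.x = s.x → u.y = s.y → u.z ≤ s.z := fun u hu a b =>
    hz u (mem_filter.2 ⟨hu, a.trans hsx, b.trans hsy⟩)
  have hN : 0 < phi s s := by
    have a1 := hmax u0 hu0
    have a2 : u0.y ≠ 0 := by simpa [om] using hu0'
    have a3 : 0 < u0.y * u0.y := mul_self_pos.2 a2
    simp only [phi] at a1 ⊢
    nlinarith [mul_self_nonneg u0.x]
  obtain ⟨t0, ht0, hw⟩ : ∃ t ∈ S, om s t < 0 := by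
    by_contra hc
    push Not at hc
    refine hN.ne' (hgen s (fun u hu => le_antisymm ?_ (hc u hu)))
    have := hc _ (hS u hu)
    simp only [om, inv_x, inv_y] at this ⊢
    linarith
  set w := om s t0 with hwdef
  obtain ⟨t, ht, hmin⟩ := exists_min_image (S.filter (fun u => om s u = w))
    (fun u => phi s s * psi u - (psi s + w) * phi s u) ⟨t0, by simp [ht0, hwdef]⟩
  rw [mem_filter] at ht
  obtain ⟨ht, htw⟩ := ht
  have hle : ∀ a b : Heis, phi s (s * b) - phi s a ≤ (cay S).dist a (s * b) * phi s s := by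
    intro a b
    obtain ⟨p, hp⟩ := (reach h1 hS hg a (s * b)).exists_walk_length_eq_dist
    rw [← hp]; exact (walk_bound hS s hmax hz' p).1
  have hlt : ∀ b ∈ S, phi s (s * b) - phi s t + 1 ≤ (cay S).dist t (s * b) * phi s s := by
    intro b hb
    refine Int.add_one_le_of_lt (lt_of_le_of_ne (hle t b) (fun he => ?_))
    obtain ⟨p, hp⟩ := (reach h1 hS hg t (s * b)).exists_walk_length_eq_dist
    rw [← hp] at he
    obtain ⟨a1, a2⟩ := (walk_bound hS s hmax hz' p).2 he
    have a3 : om s (s * b) = om s b := by simp [om]; ring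
    have a4 : phi s (s * b) = phi s s + phi s b := by simp [phi]; ring
    have a5 : psi (s * b) = psi s + psi b - om s b := by simp [psi, om]; ring
    rw [a3, htw] at a1
    have a6 := hmin b (mem_filter.2 ⟨hb, a1⟩)
    rw [a5, a1, htw] at a2
    rw [a4] at he
    have a7 : phi s b = phi s t + (p.length - 1) * phi s s := by linarith
    rw [a7] at a6
    nlinarith [mul_le_mul_of_nonneg_left a2 hN.le, mul_pos hN (neg_pos.2 hw)]
  have hadj : (cay S).Adj 1 s := by simpa using adj_mul h1 1 hs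
  refine ⟨1, s, hadj, ?_⟩
  have hcard : (0 : ℝ) < S.card := by exact_mod_cast card_pos.2 ⟨s, hs⟩
  have hNr : (0 : ℝ) < phi s s := by exact_mod_cast hN
  have hW : 1 + 1 / (S.card * (phi s s : ℝ)) ≤ W1 S 1 s := by
    refine le_csInf ⟨_, fun _ _ => 1 / (S.card : ℝ) ^ 2, fun _ _ => by positivity, ?_, ?_, rfl⟩ ?_
    · intro _ _; simp; field_simp
    · intro _ _; simp; field_simp
    · rintro c ⟨ρ, r0, r1, r2, rfl⟩
      simp only [one_mul]
      have key : ∑ a ∈ S, ∑ b ∈ S, ρ a b * ((phi s s : ℝ) + phi s b - phi s a +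
          if a = t then 1 else 0) ≤
          (∑ a ∈ S, ∑ b ∈ S, ρ a b * (cay S).dist a (s * b)) * phi s s := by
        rw [sum_mul]
        refine sum_le_sum (fun a _ => ?_)
        rw [sum_mul]
        refine sum_le_sum (fun b hb => ?_)
        rw [mul_assoc]
        refine mul_le_mul_of_nonneg_left ?_ (r0 a b)
        have a4 : phi s (s * b) = phi s s + phi s b := by simp [phi]; ring
        split_ifs with hat
        · have := hlt b hb
          rw [a4, ← hat] at this
          exact_mod_cast this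
        · have := hle a b
          rw [a4] at this
          rw [add_zero]
          exact_mod_cast this
      have e1 : ∑ a ∈ S, ∑ b ∈ S, ρ a b * (phi s b : ℝ) = ∑ b ∈ S, 1 / S.card * (phi s b : ℝ) := by
        rw [sum_comm]
        exact sum_congr rfl (fun b hb => by rw [← sum_mul, r2 b hb])
      have e2 : ∑ a ∈ S, ∑ b ∈ S, ρ a b * ((phi s s : ℝ) - phi s a + if a = t then 1 else 0) =
          ∑ a ∈ S, 1 / S.card * ((phi s s : ℝ) - phi s a + if a = t then 1 else 0) :=
        sum_congr rfl (fun a ha => by rw [← sum_mul, r1 a ha])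
      have e3 : ∑ a ∈ S, ∑ b ∈ S, ρ a b * ((phi s s : ℝ) + phi s b - phi s a +
          if a = t then 1 else 0) = phi s s + 1 / S.card := by
        have : ∀ a b, ρ a b * ((phi s s : ℝ) + phi s b - phi s a + if a = t then 1 else 0) =
            ρ a b * (phi s b : ℝ) + ρ a b * ((phi s s : ℝ) - phi s a + if a = t then 1 else 0) :=
          fun a b => by ring
        simp only [this, sum_add_distrib]
        rw [e1, e2, ← mul_sum, ← mul_sum, sum_add_distrib, sum_sub_distrib, sum_ite_eq' S t,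
          if_pos ht, sum_const, nsmul_eq_mul]
        field_simp
        ring
      rw [e3] at key
      rw [← div_le_iff₀ hNr] at key
      refine le_trans (le_of_eq ?_) key
      field_simp
  have hd : (cay S).dist 1 s = 1 := SimpleGraph.dist_eq_one_iff_adj.2 hadj
  have : (0 : ℝ) < 1 / (S.card * (phi s s : ℝ)) := by positivity
  rw [curv, hd]
  simp only [Nat.cast_one, div_one]
  linarith

end Pool.Agent.Results.MP_d3a611_gt.NoCurv
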